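import Mathlib
import Pool.Agent.Lib_MP_eb89b3_ins.Alpha

/-!
# MP_eb89b3_co: an instance with three agents and nine goods without a PMMS allocation

The best factor `α` for which the instance `value` has an `α`-PMMS allocation is exactly `568 / 569`.
-/

set_option autoImplicit false

namespace Pool.Agent.Results.MP_eb89b3_co.ThreeAgentsNineGoods

/-- The values of the nine goods for the three agents. -/
def value : Fin 3 → Fin 9 → ℕ :=
  ![![455, 273, 1275, 1301, 370, 935, 929, 1064, 881],
    ![910, 602, 1851, 1280, 38, 1485, 1295, 1634, 1237],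
    ![464, 5, 644, 882, 353, 627, 611, 620, 567]]

/-- The two-agent maximin share of the set `S` of goods, for an agent with the values `u` of the goods: the maximum,
over all splits of `S` into the disjoint parts `P` and `S \ P`, of the value of the worse part. -/
def share (u : Fin 9 → ℕ) (S : Finset (Fin 9)) : ℕ :=
  S.powerset.sup fun P => min (∑ g ∈ P, u g) (∑ g ∈ S \ P, u g)

private theorem value_eq (i : Fin 3) (g : Fin 9) : value i g = Pool.Agent.PMMS.w i g := by
  revert i g
  decide +kernel

private theorem best : ∀ i j : Fin 3,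
    568 * share (value i) ((![{5, 6, 8}, {2, 7}, {0, 1, 3, 4}] : Fin 3 → Finset (Fin 9)) i ∪
      (![{5, 6, 8}, {2, 7}, {0, 1, 3, 4}] : Fin 3 → Finset (Fin 9)) j) ≤
    569 * ∑ g ∈ (![{5, 6, 8}, {2, 7}, {0, 1, 3, 4}] : Fin 3 → Finset (Fin 9)) i, value i g := by
  decide +kernel

/-- Three agents have the positive integer values `value` for nine goods. There is an `α`-PMMS allocation (pairwise
disjoint bundles `A i` which together contain all goods, with `α μ ≤ v i (A i)` for all `i`, `j`, where `μ` is the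
maximin share of agent `i` on `A i ∪ A j`) if and only if `α ≤ 568 / 569`. In particular there is no PMMS
allocation. -/
theorem result (α : ℝ) :
    (∃ A : Fin 3 → Finset (Fin 9), (∀ i j, i ≠ j → Disjoint (A i) (A j)) ∧ (∀ g, ∃ i, g ∈ A i) ∧
      ∀ i j, α * (share (value i) (A i ∪ A j) : ℕ) ≤ (∑ g ∈ A i, value i g : ℕ)) ↔ α ≤ 568 / 569 := by
  refine ⟨?_, fun hα => ?_⟩
  · rintro ⟨A, hd, hu, h⟩
    by_contra hα
    push Not at hα
    choose B hB using hu
    have hAB : ∀ i g, g ∈ A i ↔ B g = i := by
      intro i g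
      constructor
      · intro hg
        by_contra hne
        exact Finset.disjoint_left.1 (hd _ _ hne) (hB g) hg
      · intro hg
        rw [← hg]
        exact hB g
    obtain ⟨i, j, hij, T, hT, ⟨h1, h2⟩, h3, h4⟩ := Pool.Agent.PMMSalpha.no_pmmsA B
    have e1 : Finset.univ.filter (fun g => B g = i) = A i := by
      ext g
      rw [Finset.mem_filter, hAB]
      simp
    have e2 : Finset.univ.filter (fun g => B g = i ∨ B g = j) = A i ∪ A j := by
      ext g
      rw [Finset.mem_filter, Finset.mem_union, hAB, hAB]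
      simp
    rw [e1] at h1 h2 h3 h4
    rw [e2] at hT h3 h4
    simp only [← value_eq] at h1 h2 h3 h4
    have h5 : min (∑ g ∈ T, value i g) (∑ g ∈ (A i ∪ A j) \ T, value i g) ≤
        share (value i) (A i ∪ A j) := by
      unfold share
      exact Finset.le_sup (f := fun P => min (∑ g ∈ P, value i g) (∑ g ∈ (A i ∪ A j) \ P, value i g))
        (Finset.mem_powerset.2 hT)
    have h6 : ∑ g ∈ A i, value i g < share (value i) (A i ∪ A j) := lt_of_lt_of_le (lt_min h1 h3) h5
    have h7 : 569 * ∑ g ∈ A i, value i g ≤ 568 * share (value i) (A i ∪ A j) := by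
      refine le_trans ?_ (Nat.mul_le_mul_left _ h5)
      rcases le_total (∑ g ∈ T, value i g) (∑ g ∈ (A i ∪ A j) \ T, value i g) with h8 | h8
      · rw [min_eq_left h8]
        exact h2
      · rw [min_eq_right h8]
        exact h4
    have h8 : (569 : ℝ) * (∑ g ∈ A i, value i g : ℕ) ≤ 568 * (share (value i) (A i ∪ A j) : ℕ) := by
      exact_mod_cast h7
    have h9 : (0 : ℝ) < (share (value i) (A i ∪ A j) : ℕ) := by
      exact_mod_cast lt_of_le_of_lt (Nat.zero_le _) h6
    have h10 := h i j
    have h11 := mul_lt_mul_of_pos_right hα h9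
    linarith
  · refine ⟨![{5, 6, 8}, {2, 7}, {0, 1, 3, 4}], by decide +kernel, by decide +kernel, fun i j => ?_⟩
    have h1 : (568 : ℝ) * (share (value i) ((![{5, 6, 8}, {2, 7}, {0, 1, 3, 4}] : Fin 3 → Finset (Fin 9)) i ∪
        (![{5, 6, 8}, {2, 7}, {0, 1, 3, 4}] : Fin 3 → Finset (Fin 9)) j) : ℕ) ≤
        569 * (∑ g ∈ (![{5, 6, 8}, {2, 7}, {0, 1, 3, 4}] : Fin 3 → Finset (Fin 9)) i, value i g : ℕ) := by
      exact_mod_cast best i j
    have h2 := mul_le_mul_of_nonneg_right hα (Nat.cast_nonneg (α := ℝ)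
      (share (value i) ((![{5, 6, 8}, {2, 7}, {0, 1, 3, 4}] : Fin 3 → Finset (Fin 9)) i ∪
        (![{5, 6, 8}, {2, 7}, {0, 1, 3, 4}] : Fin 3 → Finset (Fin 9)) j)))
    linarith

end Pool.Agent.Results.MP_eb89b3_co.ThreeAgentsNineGoods
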